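import Pool.Agent.W641.FB.Defs

open Set Function Filter Topology Metric

namespace Pool.Agent.W991.FB

open Pool.Agent.W641.FB

/-- Closeness of the maps implies closeness of the inverse maps. -/
theorem inv_close {n : ℕ} (h : E n ≃ₜ E n) (R ε : ℝ) (hε : 0 < ε) :
    ∃ R' m : ℝ, 0 < m ∧ ∀ g : E n ≃ₜ E n, (∀ x, ‖x‖ ≤ R' → ‖g x - h x‖ < m) →
      ∀ y, ‖y‖ ≤ R → ‖g.symm y - h.symm y‖ < ε := by
  obtain ⟨R', hR'⟩ : ∃ R' : ℝ, ∀ y, ‖y‖ ≤ R → ‖h.symm y‖ ≤ R' := by
    obtain ⟨C, hC⟩ := (isCompact_closedBall (0 : E n) R).exists_bound_of_continuousOn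
      h.symm.continuous.continuousOn
    exact ⟨C, fun y hy => hC y (by rwa [mem_closedBall_zero_iff])⟩
  have hcomp : IsCompact (closedBall (0 : E n) R' ×ˢ sphere (0 : E n) ε) :=
    (isCompact_closedBall _ _).prod (isCompact_sphere _ _)
  obtain ⟨m, hm, hm'⟩ := hcomp.exists_forall_le' (a := (0 : ℝ))
    (f := fun p : E n × E n => ‖h (p.1 + p.2) - h p.1‖)
    (by
      apply Continuous.continuousOn
      exact ((h.continuous.comp (continuous_fst.add continuous_snd)).sub
        (h.continuous.comp continuous_fst)).norm)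
    (by
      rintro ⟨x, v⟩ ⟨_, hv⟩
      rw [norm_pos_iff, sub_ne_zero]
      intro he
      have := h.injective he
      simp only [add_eq_left] at this
      rw [mem_sphere_zero_iff_norm] at hv
      simp only [this, norm_zero] at hv
      exact hε.ne hv)
  refine ⟨R' + ε, m / 4, by positivity, fun g hg y hy => ?_⟩
  set x0 := h.symm y with hx0
  have hx0' : ‖x0‖ ≤ R' := hR' y hy
  have hy0 : h x0 = y := by rw [hx0, Homeomorph.apply_symm_apply]
  have hU : IsOpen (g '' ball x0 ε) := g.isOpenMap _ isOpen_ball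
  have hV : IsOpen (g '' closedBall x0 ε)ᶜ :=
    (g.isClosedMap _ isClosed_closedBall).isOpen_compl
  have hW : IsPreconnected (ball y (m / 2)) := (convex_ball y (m / 2)).isPreconnected
  have hsub : ball y (m / 2) ⊆ g '' ball x0 ε ∪ (g '' closedBall x0 ε)ᶜ := by
    intro w hw
    by_contra hcon
    simp only [mem_union, mem_compl_iff, not_or, not_not] at hcon
    obtain ⟨h1, x, hx, rfl⟩ := hcon
    have hx1 : x ∉ ball x0 ε := fun hx' => h1 ⟨x, hx', rfl⟩
    have hxs : ‖x - x0‖ = ε := by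
      rw [mem_closedBall, dist_eq_norm] at hx
      rw [mem_ball, dist_eq_norm, not_lt] at hx1
      exact le_antisymm hx hx1
    have h2 : m ≤ ‖h (x0 + (x - x0)) - h x0‖ := hm' (x0, x - x0)
      ⟨by rwa [mem_closedBall_zero_iff], by rwa [mem_sphere_zero_iff_norm]⟩
    rw [add_sub_cancel, hy0] at h2
    have h3 : ‖x‖ ≤ R' + ε := by
      calc ‖x‖ = ‖x0 + (x - x0)‖ := by rw [add_sub_cancel]
        _ ≤ ‖x0‖ + ‖x - x0‖ := norm_add_le _ _
        _ ≤ R' + ε := by rw [hxs]; linarith
    have h4 := hg x h3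
    rw [mem_ball, dist_eq_norm] at hw
    have h5 : ‖h x - y‖ ≤ ‖g x - h x‖ + ‖g x - y‖ := by
      calc ‖h x - y‖ = ‖(g x - y) - (g x - h x)‖ := by congr 1; abel
        _ ≤ ‖g x - y‖ + ‖g x - h x‖ := norm_sub_le _ _
        _ = _ := add_comm _ _
    linarith
  have hdisj : Disjoint (g '' ball x0 ε) (g '' closedBall x0 ε)ᶜ := by
    rw [Set.disjoint_compl_right_iff_subset]
    exact image_mono ball_subset_closedBall
  have hne : (ball y (m / 2) ∩ g '' ball x0 ε).Nonempty := by
    refine ⟨g x0, ?_, x0, mem_ball_self hε, rfl⟩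
    have := hg x0 (by linarith)
    rw [hy0] at this
    rw [mem_ball, dist_eq_norm]
    linarith
  have hWU := hW.subset_left_of_subset_union hU hV hdisj hsub hne
  obtain ⟨x, hx, hxy⟩ := hWU (mem_ball_self (by positivity : (0 : ℝ) < m / 2))
  have : g.symm y = x := by rw [← hxy, Homeomorph.symm_apply_apply]
  rw [this, ← dist_eq_norm]
  exact hx

theorem homeoTop_group (n : ℕ) :
    @IsTopologicalGroup (E n ≃ₜ E n) (homeoTop n) _ := by
  letI : TopologicalSpace (E n ≃ₜ E n) := homeoTop n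
  let Φ : (E n ≃ₜ E n) → C(E n, E n) × C(E n, E n) := fun h =>
    ((⟨h, h.continuous⟩ : C(E n, E n)), (⟨h.symm, h.symm.continuous⟩ : C(E n, E n)))
  have hΦ : Continuous Φ := continuous_induced_dom
  refine @IsTopologicalGroup.mk _ _ _ ⟨?_⟩ ⟨?_⟩
  · apply continuous_induced_rng.2
    have h1 : Continuous fun p : (E n ≃ₜ E n) × (E n ≃ₜ E n) => (Φ p.1).1.comp (Φ p.2).1 :=
      Continuous.compCM (continuous_fst.comp (hΦ.comp continuous_fst))
        (continuous_fst.comp (hΦ.comp continuous_snd))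
    have h2 : Continuous fun p : (E n ≃ₜ E n) × (E n ≃ₜ E n) => (Φ p.2).2.comp (Φ p.1).2 :=
      Continuous.compCM (continuous_snd.comp (hΦ.comp continuous_snd))
        (continuous_snd.comp (hΦ.comp continuous_fst))
    exact h1.prodMk h2
  · apply continuous_induced_rng.2
    have h1 : Continuous fun p : (E n ≃ₜ E n) => (Φ p).2 := continuous_snd.comp hΦ
    have h2 : Continuous fun p : (E n ≃ₜ E n) => (Φ p).1 := continuous_fst.comp hΦ
    exact h1.prodMk h2

theorem tendsto_homeo {n : ℕ} (g : ℕ → (E n ≃ₜ E n)) (h : E n ≃ₜ E n)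
    (hg : ∀ k : ℕ, ∀ x : E n, ‖x‖ ≤ k → ‖g k x - h x‖ ≤ 1 / ((k : ℝ) + 1)) :
    Tendsto g atTop (@nhds _ (homeoTop n) h) := by
  letI : TopologicalSpace (E n ≃ₜ E n) := homeoTop n
  have hn : ∀ (R m : ℝ), 0 < m → ∀ᶠ k in atTop, ∀ x : E n, ‖x‖ ≤ R → ‖g k x - h x‖ < m := by
    intro R m hm
    obtain ⟨k0, hk0⟩ := exists_nat_gt (max R (1 / m))
    filter_upwards [eventually_ge_atTop k0] with k hk x hx
    have hk' : (k0 : ℝ) ≤ k := by exact_mod_cast hk
    have h1 : ‖x‖ ≤ k := hx.trans ((le_max_left _ _).trans (hk0.le.trans hk'))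
    refine (hg k x h1).trans_lt ?_
    have h2 : 1 / m < (k : ℝ) + 1 := by
      have := (le_max_right R (1 / m)).trans_lt hk0
      linarith
    rw [div_lt_iff₀ (by positivity)]
    rw [div_lt_iff₀ hm] at h2
    linarith
  change Tendsto g atTop (@nhds _ (TopologicalSpace.induced _ _) h)
  rw [nhds_induced, tendsto_comap_iff]
  refine Tendsto.prodMk_nhds ?_ ?_
  · rw [ContinuousMap.tendsto_iff_forall_isCompact_tendstoUniformlyOn]
    intro K hK
    rw [Metric.tendstoUniformlyOn_iff]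
    intro ε hε
    obtain ⟨R, hR⟩ := hK.isBounded.exists_norm_le
    filter_upwards [hn R ε hε] with k hk x hx
    have := hk x (hR x hx)
    rw [dist_comm, dist_eq_norm]
    exact this
  · rw [ContinuousMap.tendsto_iff_forall_isCompact_tendstoUniformlyOn]
    intro K hK
    rw [Metric.tendstoUniformlyOn_iff]
    intro ε hε
    obtain ⟨R, hR⟩ := hK.isBounded.exists_norm_le
    obtain ⟨R', m, hm, hmm⟩ := inv_close h R ε hε
    filter_upwards [hn R' m hm] with k hk x hx
    have := hmm (g k) hk x (hR x hx)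
    rw [dist_comm, dist_eq_norm]
    exact this

theorem top : S_Top := by
  intro n B
  letI : TopologicalSpace (E n ≃ₜ E n) := homeoTop n
  haveI : IsTopologicalGroup (E n ≃ₜ E n) := homeoTop_group n
  refine ⟨B.topologicalClosure, rfl, ?_⟩
  intro h hh
  choose g hgA hg using fun k : ℕ => hh k (1 / ((k : ℝ) + 1)) (by positivity)
  have ht := tendsto_homeo g h hg
  have hcl : IsClosed (B.topologicalClosure : Set (E n ≃ₜ E n)) := B.isClosed_topologicalClosure
  exact hcl.mem_of_tendsto ht (Eventually.of_forall hgA)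

end Pool.Agent.W991.FB
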