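import Pool.Agent.W641.FB.Defs

open Set Function Filter Topology

namespace Pool.Agent.W991.FB

open Pool.Agent.W641.FB

/-- A `1/4`-Lipschitz perturbation of the identity is a homeomorphism. -/
theorem exists_homeo {n : ℕ} (u : E n → E n) (hu : LipschitzWith (1 / 4) u) :
    ∃ h : E n ≃ₜ E n, ∀ x, h x = x + u x := by
  have hA : ApproximatesLinearOn (fun x => x + u x)
      ((ContinuousLinearEquiv.refl ℝ (E n) : E n ≃L[ℝ] E n) : E n →L[ℝ] E n) univ (1 / 4) := by
    intro x _ y _
    have := hu.dist_le_mul x y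
    rw [dist_eq_norm, dist_eq_norm] at this
    simpa [add_sub_add_comm] using this
  have hc : Subsingleton (E n) ∨ (1 / 4 : NNReal) <
      ‖((ContinuousLinearEquiv.refl ℝ (E n)).symm : E n →L[ℝ] E n)‖₊⁻¹ := by
    rcases subsingleton_or_nontrivial (E n) with hs | hs
    · exact Or.inl hs
    · right
      have : ‖((ContinuousLinearEquiv.refl ℝ (E n)).symm : E n →L[ℝ] E n)‖₊ = 1 := by
        have h1 : ((ContinuousLinearEquiv.refl ℝ (E n)).symm : E n →L[ℝ] E n)
            = ContinuousLinearMap.id ℝ (E n) := rfl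
        rw [h1]
        exact ContinuousLinearMap.nnnorm_id
      rw [this, inv_one]
      have : ((1 / 4 : NNReal) : ℝ) < ((1 : NNReal) : ℝ) := by norm_num
      exact_mod_cast this
  refine ⟨hA.toHomeomorph _ hc, fun x => rfl⟩

end Pool.Agent.W991.FB
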