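import Pool.Agent.W641.FB.Defs
import Pool.Agent.W991.FB.Common

open Set Function Filter Topology Metric

namespace Pool.Agent.W991.FB

open Pool.Agent.W641.FB

/-- One step. -/
theorem step_diff {n : ℕ} (A : Subgroup (E n ≃ₜ E n)) (hL : HasLip A (1 / 4))
    (p q : E n ≃ₜ E n) (M B B' : ℝ) (hM : 0 < M)
    (hp : ∀ x ∈ closedBall (0 : E n) B, ∀ y ∈ closedBall (0 : E n) B,
      ‖p.symm x - p.symm y‖ ≤ M * ‖x - y‖)
    (hp' : ∀ x ∈ closedBall (0 : E n) B, p.symm x ∈ closedBall (0 : E n) B')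
    (hq : ∀ x ∈ closedBall (0 : E n) B', ∀ y ∈ closedBall (0 : E n) B',
      ‖(q x - p x) - (q y - p y)‖ ≤ 1 / (4 * M) * ‖x - y‖) :
    ∃ a ∈ A, ∀ y ∈ closedBall (0 : E n) B, a y = q (p.symm y) := by
  have hLip : LipschitzOnWith (1 / 4) (fun y : E n => q (p.symm y) - y) (closedBall (0 : E n) B) := by
    refine LipschitzOnWith.of_dist_le_mul fun x hx y hy => ?_
    rw [dist_eq_norm, dist_eq_norm]
    have h1 := hq (p.symm x) (hp' x hx) (p.symm y) (hp' y hy)
    simp only [Homeomorph.apply_symm_apply] at h1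
    have h2 := hp x hx y hy
    calc ‖q (p.symm x) - x - (q (p.symm y) - y)‖ ≤ 1 / (4 * M) * ‖p.symm x - p.symm y‖ := h1
      _ ≤ 1 / (4 * M) * (M * ‖x - y‖) := by
        apply mul_le_mul_of_nonneg_left h2
        positivity
      _ = 1 / 4 * ‖x - y‖ := by field_simp
      _ = ((1 / 4 : NNReal) : ℝ) * ‖x - y‖ := by push_cast; rfl
  obtain ⟨u, hu, hE⟩ := hLip.extend_pi
  obtain ⟨a, ha⟩ := exists_homeo u hu
  refine ⟨a, hL u hu a ha, fun y hy => ?_⟩
  have := hE hy
  rw [ha, ← this]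
  simp

/-- The isotopy `h_s`. -/
theorem exists_family {n : ℕ} (A : Subgroup (E n ≃ₜ E n)) (hLin : HasLin A) (h : E n ≃ₜ E n)
    (h1 : ContDiff ℝ 1 h) (h2 : ContDiff ℝ 1 h.symm) (h0 : h 0 = 0) (s : ℝ) :
    ∃ P : E n ≃ₜ E n, (∀ x, HasFDerivAt P (fderiv ℝ h (s • x)) x) ∧
      (∀ x, HasFDerivAt P.symm (fderiv ℝ h.symm (s • x)) x) ∧ P 0 = 0 ∧ (s = 1 → P = h) ∧
      (s = 0 → P ∈ A) := by
  have h0' : h.symm 0 = 0 := by
    rw [Homeomorph.symm_apply_eq]; exact h0.symm
  have hd : ∀ x, HasFDerivAt h (fderiv ℝ h x) x := fun x =>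
    (h1.differentiable (by norm_num) x).hasFDerivAt
  have hd' : ∀ x, HasFDerivAt h.symm (fderiv ℝ h.symm x) x := fun x =>
    (h2.differentiable (by norm_num) x).hasFDerivAt
  by_cases hs : s = 0
  · subst hs
    have c1 : (fderiv ℝ h.symm 0).comp (fderiv ℝ h 0) = ContinuousLinearMap.id ℝ (E n) := by
      have e1 : HasFDerivAt (fun x => h.symm (h x)) ((fderiv ℝ h.symm 0).comp (fderiv ℝ h 0)) 0 := by
        have := hd' (h 0)
        rw [h0] at this
        have h3 : HasFDerivAt h.symm (fderiv ℝ h.symm 0) (h 0) := by rw [h0]; exact this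
        exact h3.comp 0 (hd 0)
      have e2 : HasFDerivAt (fun x => h.symm (h x)) (ContinuousLinearMap.id ℝ (E n)) 0 := by
        simp only [Homeomorph.symm_apply_apply]
        exact hasFDerivAt_id 0
      exact e1.unique e2
    have c2 : (fderiv ℝ h 0).comp (fderiv ℝ h.symm 0) = ContinuousLinearMap.id ℝ (E n) := by
      have e1 : HasFDerivAt (fun x => h (h.symm x)) ((fderiv ℝ h 0).comp (fderiv ℝ h.symm 0)) 0 := by
        have := hd (h.symm 0)
        rw [h0'] at this
        have h3 : HasFDerivAt h (fderiv ℝ h 0) (h.symm 0) := by rw [h0']; exact this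
        exact h3.comp 0 (hd' 0)
      have e2 : HasFDerivAt (fun x => h (h.symm x)) (ContinuousLinearMap.id ℝ (E n)) 0 := by
        simp only [Homeomorph.apply_symm_apply]
        exact hasFDerivAt_id 0
      exact e1.unique e2
    let T : E n ≃L[ℝ] E n := ContinuousLinearEquiv.equivOfInverse (fderiv ℝ h 0)
      (fderiv ℝ h.symm 0) (fun x => by
        have := congrArg (fun f => f x) c1
        simpa using this) (fun x => by
        have := congrArg (fun f => f x) c2
        simpa using this)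
    refine ⟨T.toHomeomorph, fun x => ?_, fun x => ?_, ?_, fun h => ?_, fun _ => hLin T⟩
    · rw [zero_smul]
      exact (fderiv ℝ h 0).hasFDerivAt
    · rw [zero_smul]
      exact (fderiv ℝ h.symm 0).hasFDerivAt
    · exact T.map_zero
    · norm_num at h
  · let P : E n ≃ₜ E n := ((Homeomorph.smulOfNeZero s hs).trans h).trans
      (Homeomorph.smulOfNeZero s⁻¹ (inv_ne_zero hs))
    have hP : ∀ x, P x = s⁻¹ • h (s • x) := fun x => rfl
    have hP' : ∀ x, P.symm x = s⁻¹ • h.symm (s • x) := by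
      intro x
      rw [Homeomorph.symm_apply_eq, hP]
      rw [smul_smul, mul_inv_cancel₀ hs, one_smul, Homeomorph.apply_symm_apply, smul_smul,
        inv_mul_cancel₀ hs, one_smul]
    have key : ∀ (g : E n → E n) (g' : E n → (E n →L[ℝ] E n)), (∀ x, HasFDerivAt g (g' x) x) →
        ∀ x, HasFDerivAt (fun x => s⁻¹ • g (s • x)) (g' (s • x)) x := by
      intro g g' hg x
      have e1 : HasFDerivAt (fun x : E n => s • x) (s • ContinuousLinearMap.id ℝ (E n)) x :=
        (hasFDerivAt_id x).const_smul s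
      have e2 := ((hg (s • x)).comp x e1).const_smul s⁻¹
      have e3 : s⁻¹ • (g' (s • x)).comp (s • ContinuousLinearMap.id ℝ (E n)) = g' (s • x) := by
        rw [ContinuousLinearMap.comp_smul, ContinuousLinearMap.comp_id, smul_smul,
          inv_mul_cancel₀ hs, one_smul]
      rw [e3] at e2
      exact e2
    refine ⟨P, fun x => ?_, fun x => ?_, ?_, fun h' => ?_, fun h' => absurd h' hs⟩
    · have := key h _ hd x
      exact this
    · have := key h.symm _ hd' x
      have e : (P.symm : E n → E n) = fun x => s⁻¹ • h.symm (s • x) := funext hP'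
      rw [e]; exact this
    · rw [hP, smul_zero, h0, smul_zero]
    · subst h'
      ext x
      rw [hP]; simp

theorem diff0 {n : ℕ} (A : Subgroup (E n ≃ₜ E n)) (hCG : CG A) (hL : HasLip A (1 / 4))
    (hLin : HasLin A) (h : E n ≃ₜ E n)
    (h1 : ContDiff ℝ 1 h) (h2 : ContDiff ℝ 1 h.symm) (h0 : h 0 = 0) : h ∈ A := by
  apply hCG
  intro R₀ ε hε
  set R : ℝ := max R₀ 1 with hR
  have hR1 : 1 ≤ R := le_max_right _ _
  choose P hPd hPd' hP0 hP1 hPA using fun s => exists_family A hLin h h1 h2 h0 s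
  have hP0' : ∀ s, (P s).symm 0 = 0 := fun s => by
    rw [Homeomorph.symm_apply_eq]; exact (hP0 s).symm
  have cD : Continuous (fderiv ℝ h) := h1.continuous_fderiv (by norm_num)
  have cD' : Continuous (fderiv ℝ h.symm) := h2.continuous_fderiv (by norm_num)
  have hbd : ∀ (D : E n → (E n →L[ℝ] E n)), Continuous D → ∀ r : ℝ, ∃ C : ℝ, 1 ≤ C ∧
      ∀ x ∈ closedBall (0 : E n) r, ‖D x‖ ≤ C := by
    intro D hD r
    obtain ⟨C, hC⟩ := (isCompact_closedBall (0 : E n) r).exists_bound_of_continuousOn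
      hD.continuousOn
    exact ⟨max C 1, le_max_right _ _, fun x hx => (hC x hx).trans (le_max_left _ _)⟩
  have hsm : ∀ (r s : ℝ), s ∈ Icc (0 : ℝ) 1 → ∀ x ∈ closedBall (0 : E n) r,
      s • x ∈ closedBall (0 : E n) r := by
    intro r s hs x hx
    rw [mem_closedBall_zero_iff] at hx ⊢
    rw [norm_smul, Real.norm_of_nonneg hs.1]
    exact (mul_le_of_le_one_left (norm_nonneg _) hs.2).trans hx
  obtain ⟨C, hC1, hC⟩ := hbd _ cD R
  set B : ℝ := C * R with hB
  obtain ⟨M, hM1, hM⟩ := hbd _ cD' B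
  set B' : ℝ := M * B with hB'
  have hB0 : 0 < B := by positivity
  have hM0 : 0 < M := by positivity
  have hB'0 : 0 < B' := by positivity
  -- bounds
  have bd1 : ∀ s ∈ Icc (0 : ℝ) 1, ∀ x ∈ closedBall (0 : E n) R, P s x ∈ closedBall (0 : E n) B := by
    intro s hs x hx
    have := (convex_closedBall (0 : E n) R).norm_image_sub_le_of_norm_hasFDerivWithin_le
      (f := P s) (f' := fun x => fderiv ℝ h (s • x)) (C := C)
      (fun y _ => (hPd s y).hasFDerivWithinAt)
      (fun y hy => hC _ (hsm R s hs y hy)) (mem_closedBall_self (by positivity)) hx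
    rw [hP0, sub_zero, sub_zero] at this
    rw [mem_closedBall_zero_iff] at hx ⊢
    exact this.trans (mul_le_mul_of_nonneg_left hx (by positivity))
  have bd2 : ∀ s ∈ Icc (0 : ℝ) 1, ∀ x ∈ closedBall (0 : E n) B, ∀ y ∈ closedBall (0 : E n) B,
      ‖(P s).symm x - (P s).symm y‖ ≤ M * ‖x - y‖ := by
    intro s hs x hx y hy
    exact (convex_closedBall (0 : E n) B).norm_image_sub_le_of_norm_hasFDerivWithin_le
      (f := (P s).symm) (f' := fun x => fderiv ℝ h.symm (s • x)) (C := M)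
      (fun y _ => (hPd' s y).hasFDerivWithinAt)
      (fun y hy => hM _ (hsm B s hs y hy)) hy hx
  have bd3 : ∀ s ∈ Icc (0 : ℝ) 1, ∀ x ∈ closedBall (0 : E n) B,
      (P s).symm x ∈ closedBall (0 : E n) B' := by
    intro s hs x hx
    have := bd2 s hs x hx 0 (mem_closedBall_self hB0.le)
    rw [hP0', sub_zero, sub_zero] at this
    rw [mem_closedBall_zero_iff] at hx ⊢
    exact this.trans (mul_le_mul_of_nonneg_left hx (by positivity))
  have huc : UniformContinuousOn (fderiv ℝ h) (closedBall (0 : E n) B') :=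
    (isCompact_closedBall (0 : E n) B').uniformContinuousOn_of_continuous cD.continuousOn
  rw [Metric.uniformContinuousOn_iff] at huc
  obtain ⟨δ, hδ, hδ'⟩ := huc (1 / (4 * M)) (by positivity)
  obtain ⟨N, hN⟩ := exists_nat_gt (B' / δ)
  have hN0 : (0 : ℝ) < N := lt_of_le_of_lt (by positivity) hN
  have hNδ : B' / N < δ := by
    rw [div_lt_iff₀ hN0]
    rw [div_lt_iff₀ hδ] at hN
    linarith [mul_comm δ (N : ℝ)]
  have bd4 : ∀ k : ℕ, k + 1 ≤ N → ∀ x ∈ closedBall (0 : E n) B', ∀ y ∈ closedBall (0 : E n) B',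
      ‖(P ((k + 1 : ℕ) / N) x - P (k / N) x) - (P ((k + 1 : ℕ) / N) y - P (k / N) y)‖
        ≤ 1 / (4 * M) * ‖x - y‖ := by
    intro k hk x hx y hy
    have hkN : ((k + 1 : ℕ) : ℝ) ≤ N := by exact_mod_cast hk
    have hs1 : ((k + 1 : ℕ) : ℝ) / N ∈ Icc (0 : ℝ) 1 :=
      ⟨by positivity, by rw [div_le_one hN0]; exact hkN⟩
    have hs2 : ((k : ℕ) : ℝ) / N ∈ Icc (0 : ℝ) 1 :=
      ⟨by positivity, by rw [div_le_one hN0]; push_cast at hkN; linarith⟩
    refine (convex_closedBall (0 : E n) B').norm_image_sub_le_of_norm_hasFDerivWithin_le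
      (f := fun x => P ((k + 1 : ℕ) / N) x - P (k / N) x)
      (f' := fun x => fderiv ℝ h ((((k + 1 : ℕ) : ℝ) / N) • x) - fderiv ℝ h (((k : ℝ) / N) • x))
      (C := 1 / (4 * M)) (fun y _ => ((hPd _ y).sub (hPd _ y)).hasFDerivWithinAt)
      (fun z hz => ?_) hy hx
    have hd : dist ((((k + 1 : ℕ) : ℝ) / N) • z) (((k : ℝ) / N) • z) < δ := by
      rw [dist_eq_norm, ← sub_smul, norm_smul]
      have e1 : ((k + 1 : ℕ) : ℝ) / N - (k : ℝ) / N = 1 / N := by
        push_cast; field_simp; ring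
      rw [e1, Real.norm_of_nonneg (by positivity)]
      rw [mem_closedBall_zero_iff] at hz
      calc 1 / (N : ℝ) * ‖z‖ ≤ 1 / (N : ℝ) * B' := mul_le_mul_of_nonneg_left hz (by positivity)
        _ = B' / N := by ring
        _ < δ := hNδ
    have := hδ' _ (hsm B' _ hs1 z hz) _ (hsm B' _ hs2 z hz) hd
    rw [dist_eq_norm] at this
    exact this.le
  -- induction
  have ind : ∀ k : ℕ, k ≤ N → ∃ a ∈ A, ∀ x ∈ closedBall (0 : E n) R, a x = P (k / N) x := by
    intro k
    induction k with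
    | zero =>
      intro _
      exact ⟨P (((0 : ℕ) : ℝ) / N), hPA _ (by simp), fun x _ => rfl⟩
    | succ k ih =>
      intro hk
      obtain ⟨a, haA, ha⟩ := ih (by omega)
      have hkN : ((k + 1 : ℕ) : ℝ) ≤ N := by exact_mod_cast hk
      have hs2 : ((k : ℕ) : ℝ) / N ∈ Icc (0 : ℝ) 1 :=
        ⟨by positivity, by rw [div_le_one hN0]; push_cast at hkN; linarith⟩
      obtain ⟨b, hbA, hb⟩ := step_diff A hL (P (k / N)) (P ((k + 1 : ℕ) / N)) M B B' hM0
        (bd2 _ hs2) (bd3 _ hs2) (bd4 k hk)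
      refine ⟨b * a, A.mul_mem hbA haA, fun x hx => ?_⟩
      have e : (b * a) x = b (a x) := rfl
      rw [e, ha x hx, hb _ (bd1 _ hs2 x hx), Homeomorph.symm_apply_apply]
  obtain ⟨a, haA, ha⟩ := ind N le_rfl
  refine ⟨a, haA, fun x hx => ?_⟩
  have hx' : x ∈ closedBall (0 : E n) R := by
    rw [mem_closedBall_zero_iff]; exact hx.trans (le_max_left _ _)
  rw [ha x hx', hP1 _ (div_self hN0.ne'), sub_self, norm_zero]
  exact hε.le

theorem diff : S_Diff := by
  intro n A hCG hL hLin hT h h1 h2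
  let τ : E n ≃ₜ E n := Homeomorph.addRight (-(h 0))
  have hτ : ∀ x, τ x = x + (-(h 0)) := fun x => rfl
  have hτA : τ ∈ A := hT _ _ hτ
  have hmem : τ * h ∈ A := by
    apply diff0 A hCG hL hLin
    · have : ((τ * h : E n ≃ₜ E n) : E n → E n) = fun x => h x + (-(h 0)) := rfl
      rw [this]
      exact h1.add contDiff_const
    · have : (((τ * h : E n ≃ₜ E n).symm : E n ≃ₜ E n) : E n → E n)
          = fun x => h.symm (x + h 0) := by
        funext x
        rw [Homeomorph.symm_apply_eq]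
        change x = h (h.symm (x + h 0)) + (-(h 0))
        rw [Homeomorph.apply_symm_apply]; simp
      rw [this]
      exact h2.comp (contDiff_id.add contDiff_const)
    · change h 0 + (-(h 0)) = 0
      simp
  exact (A.mul_mem_cancel_left hτA).1 hmem

end Pool.Agent.W991.FB
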